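import Mathlib

/-!
# The difference equation `y_n = (1/y_{n-a} + 1/y_{n-b}) / 2`: limit points
-/

namespace Pool.Agent.V11256.DE

open Filter Topology

/-- Ultrafilter limits of all the backward shifts of a bounded sequence, along an ultrafilter
where the absolute value tends to its upper limit. -/
lemma exists_limits (u : ℕ → ℝ) (M : ℝ) (hM : ∀ n, |u n| ≤ M) :
    ∃ (L : ℝ) (U : Ultrafilter ℕ) (z : ℕ → ℝ), (U : Filter ℕ) ≤ atTop ∧ 0 ≤ L ∧ |z 0| = L ∧
      (∀ j, |z j| ≤ L) ∧ (∀ j, Tendsto (fun n => u (n - j)) U (𝓝 (z j))) ∧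
      (∀ e > 0, ∀ᶠ n in atTop, |u n| < L + e) := by
  classical
  have hbdd : IsBoundedUnder (· ≤ ·) atTop (fun n => |u n|) := by
    refine isBoundedUnder_of ⟨M, fun n => hM n⟩
  have hcob : IsCoboundedUnder (· ≤ ·) atTop (fun n => |u n|) := by
    refine IsBoundedUnder.isCoboundedUnder_le ?_
    exact isBoundedUnder_of ⟨0, fun n => abs_nonneg _⟩
  set L := limsup (fun n => |u n|) atTop with hL
  have hup : ∀ e > 0, ∀ᶠ n in atTop, |u n| < L + e := by
    intro e he
    exact eventually_lt_of_limsup_lt (by linarith) hbdd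
  have hfr : ∀ e > 0, ∃ᶠ n in atTop, L - e < |u n| := by
    intro e he
    exact frequently_lt_of_lt_limsup hcob (by linarith)
  have hL0 : 0 ≤ L := by
    by_contra hneg
    push Not at hneg
    obtain ⟨n, hn⟩ := (hup (-L) (by linarith)).exists
    have := abs_nonneg (u n)
    linarith
  have hcl : MapClusterPt L atTop (fun n => |u n|) := by
    rw [mapClusterPt_iff_frequently]
    intro s hs
    obtain ⟨e, he, hes⟩ := Metric.mem_nhds_iff.1 hs
    refine ((hfr e he).and_eventually (hup e he)).mono ?_
    rintro n ⟨h1, h2⟩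
    apply hes
    rw [Metric.mem_ball, Real.dist_eq, abs_lt]
    constructor <;> linarith
  obtain ⟨U, hU, hUL⟩ := mapClusterPt_iff_ultrafilter.1 hcl
  have hex : ∀ j : ℕ, ∃ x : ℝ, Tendsto (fun n => u (n - j)) U (𝓝 x) := by
    intro j
    have hc : IsCompact (Set.Icc (-M) M) := isCompact_Icc
    obtain ⟨x, _, hx⟩ := hc.ultrafilter_le_nhds (U.map (fun n => u (n - j))) (by
      rw [le_principal_iff, Ultrafilter.mem_coe, Ultrafilter.mem_map]
      exact Filter.univ_mem' (fun n => abs_le.1 (hM (n - j))))
    exact ⟨x, hx⟩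
  choose z hz using hex
  have hz0 : |z 0| = L := by
    have h1 : Tendsto (fun n => |u (n - 0)|) U (𝓝 |z 0|) := (hz 0).abs
    simp only [Nat.sub_zero] at h1
    exact tendsto_nhds_unique h1 hUL
  have hzle : ∀ j, |z j| ≤ L := by
    intro j
    refine le_of_forall_pos_le_add ?_
    intro e he
    have h1 : Tendsto (fun n => |u (n - j)|) U (𝓝 |z j|) := (hz j).abs
    have h2 : ∀ᶠ n in (atTop : Filter ℕ), |u (n - j)| ≤ L + e := by
      have := (tendsto_sub_atTop_nat j).eventually (hup e he)
      exact this.mono (fun n hn => hn.le)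
    exact le_of_tendsto h1 (hU h2)
  exact ⟨L, U, z, hU, hL0, hz0, hzle, hz, hup⟩

/-- The limits satisfy the recursion. -/
lemma limits_rec (a b : ℕ) (u : ℕ → ℝ)
    (hrec : ∀ n, max a b ≤ n →
      Real.exp (u n) = (Real.exp (-u (n - a)) + Real.exp (-u (n - b))) / 2)
    (U : Ultrafilter ℕ) (hU : (U : Filter ℕ) ≤ atTop) (z : ℕ → ℝ)
    (hz : ∀ j, Tendsto (fun n => u (n - j)) U (𝓝 (z j))) (j : ℕ) :
    Real.exp (z j) = (Real.exp (-z (j + a)) + Real.exp (-z (j + b))) / 2 := by
  have h1 : Tendsto (fun n => Real.exp (u (n - j))) U (𝓝 (Real.exp (z j))) :=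
    (Real.continuous_exp.tendsto _).comp (hz j)
  have h2 : Tendsto (fun n => (Real.exp (-u (n - (j + a))) + Real.exp (-u (n - (j + b)))) / 2) U
      (𝓝 ((Real.exp (-z (j + a)) + Real.exp (-z (j + b))) / 2)) := by
    refine Tendsto.div_const ?_ 2
    exact ((Real.continuous_exp.tendsto _).comp (hz (j + a)).neg).add
      ((Real.continuous_exp.tendsto _).comp (hz (j + b)).neg)
  refine tendsto_nhds_unique h1 (h2.congr' ?_)
  have h3 : ∀ᶠ n in (atTop : Filter ℕ), j + max a b ≤ n := eventually_ge_atTop _
  have h4 : ∀ᶠ n in (U : Filter ℕ), j + max a b ≤ n := hU h3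
  filter_upwards [h4] with n hn
  have h5 := hrec (n - j) (by omega)
  rw [h5, Nat.sub_sub, Nat.sub_sub]

/-- Extremal values propagate backwards with a change of sign. -/
lemma propagate (L p q r : ℝ) (hp : |p| = L) (hq : |q| ≤ L) (hr : |r| ≤ L)
    (h : Real.exp p = (Real.exp (-q) + Real.exp (-r)) / 2) : q = -p ∧ r = -p := by
  have hq' := abs_le.1 hq
  have hr' := abs_le.1 hr
  rcases abs_choice p with hc | hc
  · have hpL : p = L := by rw [← hp, hc]
    have h1 : Real.exp (-q) ≤ Real.exp p := Real.exp_le_exp.2 (by linarith)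
    have h2 : Real.exp (-r) ≤ Real.exp p := Real.exp_le_exp.2 (by linarith)
    have h3 : Real.exp (-q) = Real.exp p := by linarith
    have h4 : Real.exp (-r) = Real.exp p := by linarith
    have h5 := Real.exp_injective h3
    have h6 := Real.exp_injective h4
    constructor <;> linarith
  · have hpL : p = -L := by rw [← hp, hc]; ring
    have h1 : Real.exp p ≤ Real.exp (-q) := Real.exp_le_exp.2 (by linarith)
    have h2 : Real.exp p ≤ Real.exp (-r) := Real.exp_le_exp.2 (by linarith)
    have h3 : Real.exp (-q) = Real.exp p := by linarith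
    have h4 : Real.exp (-r) = Real.exp p := by linarith
    have h5 := Real.exp_injective h3
    have h6 := Real.exp_injective h4
    constructor <;> linarith

/-- Bounded logarithms. -/
lemma bounded (a b : ℕ) (ha : 0 < a) (hb : 0 < b) (u : ℕ → ℝ)
    (hrec : ∀ n, max a b ≤ n →
      Real.exp (u n) = (Real.exp (-u (n - a)) + Real.exp (-u (n - b))) / 2) :
    ∃ M, ∀ n, |u n| ≤ M := by
  refine ⟨∑ i ∈ Finset.range (max a b), |u i|, ?_⟩
  set M := ∑ i ∈ Finset.range (max a b), |u i| with hM
  intro n
  induction n using Nat.strong_induction_on with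
  | _ n ih =>
    by_cases hn : n < max a b
    · exact Finset.single_le_sum (f := fun i => |u i|) (fun i _ => abs_nonneg _)
        (Finset.mem_range.2 hn)
    · push Not at hn
      have h1 := abs_le.1 (ih (n - a) (by omega))
      have h2 := abs_le.1 (ih (n - b) (by omega))
      have h3 := hrec n hn
      have e1 : Real.exp (-u (n - a)) ≤ Real.exp M := Real.exp_le_exp.2 (by linarith)
      have e2 : Real.exp (-u (n - b)) ≤ Real.exp M := Real.exp_le_exp.2 (by linarith)
      have e3 : Real.exp (-M) ≤ Real.exp (-u (n - a)) := Real.exp_le_exp.2 (by linarith)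
      have e4 : Real.exp (-M) ≤ Real.exp (-u (n - b)) := Real.exp_le_exp.2 (by linarith)
      rw [abs_le]
      constructor
      · exact Real.exp_le_exp.1 (by linarith)
      · exact Real.exp_le_exp.1 (by linarith)

/-- Convergence to the equilibrium when one of `a/g`, `b/g` is even. -/
theorem conv (a b : ℕ) (ha : 0 < a) (hb : 0 < b)
    (hpar : Even (a / Nat.gcd a b) ∨ Even (b / Nat.gcd a b)) (u : ℕ → ℝ)
    (hrec : ∀ n, max a b ≤ n →
      Real.exp (u n) = (Real.exp (-u (n - a)) + Real.exp (-u (n - b))) / 2) :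
    Tendsto u atTop (𝓝 0) := by
  obtain ⟨M, hM⟩ := bounded a b ha hb u hrec
  obtain ⟨L, U, z, hU, hL0, hz0, hzle, hz, hup⟩ := exists_limits u M hM
  have hzrec := limits_rec a b u hrec U hU z hz
  have hprop : ∀ j, |z j| = L → z (j + a) = -z j ∧ z (j + b) = -z j := fun j hj =>
    propagate L (z j) (z (j + a)) (z (j + b)) hj (hzle _) (hzle _) (hzrec j)
  have hA : ∀ i : ℕ, z (i * a) = (-1) ^ i * z 0 := by
    intro i
    induction i with
    | zero => simp
    | succ i ih =>
      have habs : |z (i * a)| = L := by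
        rw [ih, abs_mul, abs_pow, abs_neg, abs_one, one_pow, one_mul, hz0]
      have := (hprop _ habs).1
      rw [Nat.succ_mul, this, ih, pow_succ]
      ring
  have hB : ∀ i : ℕ, z (i * b) = (-1) ^ i * z 0 := by
    intro i
    induction i with
    | zero => simp
    | succ i ih =>
      have habs : |z (i * b)| = L := by
        rw [ih, abs_mul, abs_pow, abs_neg, abs_one, one_pow, one_mul, hz0]
      have := (hprop _ habs).2
      rw [Nat.succ_mul, this, ih, pow_succ]
      ring
  set g := Nat.gcd a b with hg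
  have hgpos : 0 < g := Nat.gcd_pos_of_pos_left b ha
  have hcop : Nat.Coprime (a / g) (b / g) := Nat.coprime_div_gcd_div_gcd hgpos
  have hga : g * (a / g) = a := Nat.mul_div_cancel' (Nat.gcd_dvd_left a b)
  have hgb : g * (b / g) = b := Nat.mul_div_cancel' (Nat.gcd_dvd_right a b)
  have hsame : (b / g) * a = (a / g) * b := by
    calc (b / g) * a = (b / g) * (g * (a / g)) := by rw [hga]
      _ = (a / g) * (g * (b / g)) := by ring
      _ = (a / g) * b := by rw [hgb]
  have hkey : (-1 : ℝ) ^ (b / g) * z 0 = (-1) ^ (a / g) * z 0 := by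
    rw [← hA, ← hB, hsame]
  have hz00 : z 0 = 0 := by
    rcases hpar with he | he
    · have ho : Odd (b / g) := by
        by_contra hne
        rw [Nat.not_odd_iff_even] at hne
        have := Nat.dvd_gcd he.two_dvd hne.two_dvd
        rw [hcop] at this
        omega
      rw [he.neg_one_pow, ho.neg_one_pow] at hkey
      linarith
    · have ho : Odd (a / g) := by
        by_contra hne
        rw [Nat.not_odd_iff_even] at hne
        have := Nat.dvd_gcd hne.two_dvd he.two_dvd
        rw [hcop] at this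
        omega
      rw [he.neg_one_pow, ho.neg_one_pow] at hkey
      linarith
  have hLz : L = 0 := by rw [← hz0, hz00, abs_zero]
  rw [Metric.tendsto_atTop]
  intro e he
  obtain ⟨N, hN⟩ := eventually_atTop.1 (hup e he)
  refine ⟨N, fun n hn => ?_⟩
  have := hN n hn
  rw [Real.dist_eq, sub_zero]
  linarith

end Pool.Agent.V11256.DE
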