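import Mathlib
import Pool.Agent.V11256.DE.A

/-!
# Alternating arithmetic and harmonic means with delays
-/

namespace Pool.Agent.V11256.DE

open Filter Topology

/-- One step of the mean iteration: the new value is a generalized mean of the two old ones. -/
def Mean (p q r : ℝ) : Prop :=
  Real.exp p = (Real.exp q + Real.exp r) / 2 ∨ Real.exp (-p) = (Real.exp (-q) + Real.exp (-r)) / 2

lemma Mean.ge {p q r C : ℝ} (h : Mean p q r) (hq : C ≤ q) (hr : C ≤ r) : C ≤ p := by
  rcases h with h | h
  · have h1 : Real.exp C ≤ Real.exp q := Real.exp_le_exp.2 hq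
    have h2 : Real.exp C ≤ Real.exp r := Real.exp_le_exp.2 hr
    exact Real.exp_le_exp.1 (by linarith)
  · have h1 : Real.exp (-q) ≤ Real.exp (-C) := Real.exp_le_exp.2 (by linarith)
    have h2 : Real.exp (-r) ≤ Real.exp (-C) := Real.exp_le_exp.2 (by linarith)
    have h3 : Real.exp (-p) ≤ Real.exp (-C) := by linarith
    have := Real.exp_le_exp.1 h3
    linarith

lemma Mean.neg {p q r : ℝ} (h : Mean p q r) : Mean (-p) (-q) (-r) := by
  rcases h with h | h
  · right; simpa using h
  · left; exact h

lemma Mean.add {p q r : ℝ} (h : Mean p q r) (c : ℝ) : Mean (p + c) (q + c) (r + c) := by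
  rcases h with h | h
  · left
    rw [Real.exp_add, Real.exp_add, Real.exp_add, h]
    ring
  · right
    rw [neg_add, neg_add, neg_add, Real.exp_add, Real.exp_add, Real.exp_add, h]
    ring

lemma Mean.top {p q r L : ℝ} (h : Mean p q r) (hp : p = L) (hq : q ≤ L) (hr : r ≤ L) :
    q = L ∧ r = L := by
  subst hp
  rcases h with h | h
  · have h1 : Real.exp q ≤ Real.exp p := Real.exp_le_exp.2 hq
    have h2 : Real.exp r ≤ Real.exp p := Real.exp_le_exp.2 hr
    have h3 : Real.exp q = Real.exp p := by linarith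
    have h4 : Real.exp r = Real.exp p := by linarith
    exact ⟨Real.exp_injective h3, Real.exp_injective h4⟩
  · have h1 : Real.exp (-p) ≤ Real.exp (-q) := Real.exp_le_exp.2 (by linarith)
    have h2 : Real.exp (-p) ≤ Real.exp (-r) := Real.exp_le_exp.2 (by linarith)
    have h3 : Real.exp (-q) = Real.exp (-p) := by linarith
    have h4 : Real.exp (-r) = Real.exp (-p) := by linarith
    have h5 := Real.exp_injective h3
    have h6 := Real.exp_injective h4
    constructor <;> linarith

lemma low (a b : ℕ) (ha : 0 < a) (hb : 0 < b) (t : ℕ → ℝ)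
    (hrec : ∀ n, max a b ≤ n → Mean (t n) (t (n - a)) (t (n - b))) (C : ℝ) (n0 : ℕ)
    (h0 : ∀ i < max a b, C ≤ t (n0 + i)) : ∀ n, n0 ≤ n → C ≤ t n := by
  intro n
  induction n using Nat.strong_induction_on with
  | _ n ih =>
    intro hn
    by_cases hlt : n < n0 + max a b
    · have := h0 (n - n0) (by omega)
      rwa [show n0 + (n - n0) = n by omega] at this
    · push Not at hlt
      exact (hrec n (by omega)).ge (ih (n - a) (by omega) (by omega))
        (ih (n - b) (by omega) (by omega))

lemma limits_mean (a b : ℕ) (t : ℕ → ℝ)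
    (hrec : ∀ n, max a b ≤ n → Mean (t n) (t (n - a)) (t (n - b)))
    (U : Ultrafilter ℕ) (hU : (U : Filter ℕ) ≤ atTop) (z : ℕ → ℝ)
    (hz : ∀ j, Tendsto (fun n => t (n - j)) U (𝓝 (z j))) (j : ℕ) :
    Mean (z j) (z (j + a)) (z (j + b)) := by
  have h3 : ∀ᶠ n in (atTop : Filter ℕ), j + max a b ≤ n := eventually_ge_atTop _
  have h4 : ∀ᶠ n in (U : Filter ℕ), j + max a b ≤ n := hU h3
  have h5 : ∀ᶠ n in (U : Filter ℕ), Mean (t (n - j)) (t (n - (j + a))) (t (n - (j + b))) := by
    filter_upwards [h4] with n hn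
    have := hrec (n - j) (by omega)
    rwa [Nat.sub_sub, Nat.sub_sub] at this
  have hp := (Real.continuous_exp.tendsto _).comp (hz j)
  have hq := (Real.continuous_exp.tendsto _).comp (hz (j + a))
  have hr := (Real.continuous_exp.tendsto _).comp (hz (j + b))
  have hp' := (Real.continuous_exp.tendsto _).comp (hz j).neg
  have hq' := (Real.continuous_exp.tendsto _).comp (hz (j + a)).neg
  have hr' := (Real.continuous_exp.tendsto _).comp (hz (j + b)).neg
  rcases Ultrafilter.eventually_or.1 h5 with h | h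
  · left
    refine tendsto_nhds_unique hp (((hq.add hr).div_const 2).congr' ?_)
    filter_upwards [h] with n hn
    exact hn.symm
  · right
    refine tendsto_nhds_unique hp' (((hq'.add hr').div_const 2).congr' ?_)
    filter_upwards [h] with n hn
    exact hn.symm

lemma conv_nonneg (a b : ℕ) (ha : 0 < a) (hb : 0 < b) (hab : Nat.Coprime a b) (t : ℕ → ℝ)
    (hrec : ∀ n, max a b ≤ n → Mean (t n) (t (n - a)) (t (n - b)))
    (ht0 : ∀ n, 0 ≤ t n) (M : ℝ) (hM : ∀ n, t n ≤ M) :
    ∃ θ, Tendsto t atTop (𝓝 θ) := by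
  have habs : ∀ n, |t n| = t n := fun n => abs_of_nonneg (ht0 n)
  obtain ⟨L, U, z, hU, hL0, hz0, hzle, hz, hup⟩ :=
    exists_limits t M (fun n => by rw [habs]; exact hM n)
  have hzrec := limits_mean a b t hrec U hU z hz
  have hz0' : 0 ≤ z 0 := ge_of_tendsto' (hz 0) (fun n => ht0 _)
  have hz0L : z 0 = L := by rw [← hz0, abs_of_nonneg hz0']
  have hzle' : ∀ j, z j ≤ L := fun j => le_trans (le_abs_self _) (hzle j)
  have hstep : ∀ j, z j = L → z (j + a) = L ∧ z (j + b) = L := fun j hj =>
    (hzrec j).top hj (hzle' _) (hzle' _)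
  have hall : ∀ i k : ℕ, z (i * a + k * b) = L := by
    intro i k
    induction i with
    | zero =>
      induction k with
      | zero => simpa using hz0L
      | succ k ih =>
        have := (hstep _ ih).2
        rwa [show 0 * a + k * b + b = 0 * a + (k + 1) * b by ring] at this
    | succ i ih =>
      have := (hstep _ ih).1
      rwa [show i * a + k * b + a = (i + 1) * a + k * b by ring] at this
  have hlarge : ∀ j, a * b ≤ j → z j = L := by
    intro j hj
    obtain ⟨i, k, hik⟩ := Nat.exists_add_mul_eq_of_gcd_dvd_of_mul_pred_le a b j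
      (by rw [hab]; exact one_dvd _)
      (le_trans (Nat.mul_le_mul (Nat.pred_le a) (Nat.pred_le b)) hj)
    rw [← hik]
    exact hall i k
  refine ⟨L, ?_⟩
  rw [Metric.tendsto_atTop]
  intro e he
  have hev : ∀ᶠ n in (U : Filter ℕ), ∀ i ∈ Finset.range (max a b),
      L - e / 2 ≤ t (n - (a * b + i)) := by
    rw [Filter.eventually_all_finset]
    intro i _
    have h1 := hz (a * b + i)
    rw [hlarge _ (by omega)] at h1
    have h2 : ∀ᶠ n in (U : Filter ℕ), t (n - (a * b + i)) ∈ Set.Ioi (L - e / 2) :=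
      h1.eventually (Ioi_mem_nhds (by linarith))
    exact h2.mono (fun n hn => le_of_lt hn)
  have hbig : ∀ᶠ n in (U : Filter ℕ), a * b + max a b ≤ n := hU (eventually_ge_atTop _)
  obtain ⟨n, hn1, hn2⟩ := (hev.and hbig).exists
  have hlow := low a b ha hb t hrec (L - e / 2) (n - (a * b + max a b) + 1) (by
    intro i hi
    have := hn1 (max a b - 1 - i) (Finset.mem_range.2 (by omega))
    rwa [show n - (a * b + (max a b - 1 - i)) = n - (a * b + max a b) + 1 + i by omega] at this)
  obtain ⟨N, hN⟩ := eventually_atTop.1 (hup e he)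
  refine ⟨max N (n - (a * b + max a b) + 1), fun n' hn' => ?_⟩
  have h1 := hN n' (le_trans (le_max_left _ _) hn')
  have h2 := hlow n' (le_trans (le_max_right _ _) hn')
  rw [habs] at h1
  rw [Real.dist_eq, abs_lt]
  constructor <;> linarith

/-- Mean iterations with coprime delays converge. -/
theorem conv_mean (a b : ℕ) (ha : 0 < a) (hb : 0 < b) (hab : Nat.Coprime a b) (t : ℕ → ℝ)
    (hrec : ∀ n, max a b ≤ n → Mean (t n) (t (n - a)) (t (n - b))) :
    ∃ θ, Tendsto t atTop (𝓝 θ) := by
  set S := ∑ i ∈ Finset.range (max a b), |t i| with hS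
  have hle : ∀ i < max a b, |t i| ≤ S := fun i hi =>
    Finset.single_le_sum (f := fun i => |t i|) (fun i _ => abs_nonneg _) (Finset.mem_range.2 hi)
  have hlo : ∀ n, -S ≤ t n := fun n => low a b ha hb t hrec (-S) 0 (by
    intro i hi
    have := abs_le.1 (hle i hi)
    simpa using this.1) n (Nat.zero_le _)
  have hhi : ∀ n, -S ≤ -t n := fun n => low a b ha hb (fun n => -t n)
    (fun n hn => (hrec n hn).neg) (-S) 0 (by
    intro i hi
    have := abs_le.1 (hle i hi)
    simpa using this.2) n (Nat.zero_le _)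
  obtain ⟨θ, hθ⟩ := conv_nonneg a b ha hb hab (fun n => t n + S) (fun n hn => (hrec n hn).add S)
    (fun n => by have := hlo n; linarith) (2 * S)
    (fun n => by have := hhi n; linarith)
  refine ⟨θ - S, ?_⟩
  have := hθ.sub_const S
  simpa using this

end Pool.Agent.V11256.DE
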