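import Mathlib
import Pool.Agent.V11256.DE.B

/-!
# Solutions of `X_n = 1/X_{n-a} + 1/X_{n-b}`
-/

namespace Pool.Agent.V11256.DE

open Filter Topology

/-- The recursion, with indices in `ℕ`. -/
def Rec (a b : ℕ) (X : ℕ → ℝ) : Prop :=
  ∀ n, max a b ≤ n → X n = 1 / X (n - a) + 1 / X (n - b)

lemma Rec.pos {a b : ℕ} (ha : 0 < a) (hb : 0 < b) {X : ℕ → ℝ} (h : Rec a b X)
    (h0 : ∀ n < max a b, 0 < X n) : ∀ n, 0 < X n := by
  intro n
  induction n using Nat.strong_induction_on with
  | _ n ih =>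
    by_cases hlt : n < max a b
    · exact h0 n hlt
    · push Not at hlt
      rw [h n hlt]
      have h1 := ih (n - a) (by omega)
      have h2 := ih (n - b) (by omega)
      positivity

lemma Rec.unique {a b : ℕ} (ha : 0 < a) (hb : 0 < b) {X Y : ℕ → ℝ} (hX : Rec a b X)
    (hY : Rec a b Y) (h0 : ∀ n < max a b, X n = Y n) : ∀ n, X n = Y n := by
  intro n
  induction n using Nat.strong_induction_on with
  | _ n ih =>
    by_cases hlt : n < max a b
    · exact h0 n hlt
    · push Not at hlt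
      rw [hX n hlt, hY n hlt, ih (n - a) (by omega), ih (n - b) (by omega)]

/-- The solution with given initial values. -/
noncomputable def sol (a b : ℕ) (v : ℕ → ℝ) : ℕ → ℝ
  | n => if h : n < max a b ∨ a = 0 ∨ b = 0 then v n
      else 1 / sol a b v (n - a) + 1 / sol a b v (n - b)
termination_by n => n
decreasing_by all_goals (push Not at h; omega)

lemma sol_init (a b : ℕ) (v : ℕ → ℝ) (n : ℕ) (h : n < max a b) : sol a b v n = v n := by
  rw [sol, dif_pos (Or.inl h)]

lemma sol_rec (a b : ℕ) (ha : 0 < a) (hb : 0 < b) (v : ℕ → ℝ) : Rec a b (sol a b v) := by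
  intro n hn
  conv_lhs => rw [sol]
  rw [dif_neg (by omega)]

lemma log_rec {a b : ℕ} {X : ℕ → ℝ} (h : Rec a b X) (hpos : ∀ n, 0 < X n) :
    ∀ n, max a b ≤ n → Real.exp (Real.log (X n / Real.sqrt 2)) =
      (Real.exp (-Real.log (X (n - a) / Real.sqrt 2)) +
        Real.exp (-Real.log (X (n - b) / Real.sqrt 2))) / 2 := by
  intro n hn
  have hs : 0 < Real.sqrt 2 := Real.sqrt_pos.2 (by norm_num)
  have hs2 : Real.sqrt 2 * Real.sqrt 2 = 2 := Real.mul_self_sqrt (by norm_num)
  have h1 := hpos n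
  have h2 := hpos (n - a)
  have h3 := hpos (n - b)
  rw [Real.exp_neg, Real.exp_neg, Real.exp_log (by positivity), Real.exp_log (by positivity),
    Real.exp_log (by positivity), h n hn]
  field_simp
  nlinarith [hs2]

lemma tendsto_iff_log {X : ℕ → ℝ} (hpos : ∀ n, 0 < X n) :
    Tendsto X atTop (𝓝 (Real.sqrt 2)) ↔
      Tendsto (fun n => Real.log (X n / Real.sqrt 2)) atTop (𝓝 0) := by
  have hs : 0 < Real.sqrt 2 := Real.sqrt_pos.2 (by norm_num)
  constructor
  · intro h
    have h1 : Tendsto (fun n => X n / Real.sqrt 2) atTop (𝓝 (Real.sqrt 2 / Real.sqrt 2)) :=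
      h.div_const _
    rw [div_self hs.ne'] at h1
    have h2 := (Real.continuousAt_log (one_ne_zero)).tendsto.comp h1
    rwa [Real.log_one] at h2
  · intro h
    have h1 := ((Real.continuous_exp.tendsto 0).comp h).mul_const (Real.sqrt 2)
    rw [Real.exp_zero, one_mul] at h1
    refine h1.congr ?_
    intro n
    have := hpos n
    simp only [Function.comp_apply]
    rw [Real.exp_log (by positivity)]
    field_simp

/-- The sign of the block of length `g` containing `n`. -/
def tau (g n : ℕ) : ℝ := if Even (n / g) then 1 else -1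

lemma tau_abs (g n : ℕ) : |tau g n| = 1 := by
  unfold tau
  split_ifs <;> simp

lemma tau_mul_self (g n : ℕ) : tau g n * tau g n = 1 := by
  unfold tau
  split_ifs <;> norm_num

lemma even_sub_div (g a n : ℕ) (hg : 0 < g) (hga : g ∣ a) (ho : Odd (a / g)) (hn : a ≤ n) :
    Even ((n - a) / g) ↔ ¬ Even (n / g) := by
  obtain ⟨a', rfl⟩ := hga
  rw [Nat.mul_div_cancel_left _ hg] at ho
  have h1 : (n - g * a') / g = n / g - a' := Nat.sub_mul_div _ _ _
  have h2 : a' ≤ n / g := by
    rw [Nat.le_div_iff_mul_le hg]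
    linarith [Nat.mul_comm g a']
  rw [h1, Nat.even_sub h2]
  have : ¬ Even a' := Nat.not_even_iff_odd.2 ho
  tauto

/-- Convergence along the residue classes. -/
theorem res_conv (a b : ℕ) (ha : 0 < a) (hb : 0 < b) (hao : Odd (a / Nat.gcd a b))
    (hbo : Odd (b / Nat.gcd a b)) (u : ℕ → ℝ)
    (hrec : ∀ n, max a b ≤ n →
      Real.exp (u n) = (Real.exp (-u (n - a)) + Real.exp (-u (n - b))) / 2) (ρ : ℕ) :
    ∃ θ, Tendsto (fun i => tau (Nat.gcd a b) (ρ + Nat.gcd a b * i) * u (ρ + Nat.gcd a b * i))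
      atTop (𝓝 θ) := by
  set g := Nat.gcd a b with hg
  have hgpos : 0 < g := Nat.gcd_pos_of_pos_left b ha
  have hda : g ∣ a := Nat.gcd_dvd_left a b
  have hdb : g ∣ b := Nat.gcd_dvd_right a b
  have hcop : Nat.Coprime (a / g) (b / g) := Nat.coprime_div_gcd_div_gcd hgpos
  have hga : g * (a / g) = a := Nat.mul_div_cancel' hda
  have hgb : g * (b / g) = b := Nat.mul_div_cancel' hdb
  refine conv_mean (a / g) (b / g) hao.pos hbo.pos hcop _ ?_
  intro i hi
  have hia : a / g ≤ i := le_trans (le_max_left _ _) hi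
  have hib : b / g ≤ i := le_trans (le_max_right _ _) hi
  have h1 : a ≤ g * i := by
    calc a = g * (a / g) := hga.symm
      _ ≤ g * i := Nat.mul_le_mul_left _ hia
  have h2 : b ≤ g * i := by
    calc b = g * (b / g) := hgb.symm
      _ ≤ g * i := Nat.mul_le_mul_left _ hib
  have h3 : ρ + g * (i - a / g) = ρ + g * i - a := by
    rw [Nat.mul_sub, hga]; omega
  have h4 : ρ + g * (i - b / g) = ρ + g * i - b := by
    rw [Nat.mul_sub, hgb]; omega
  have hr := hrec (ρ + g * i) (by omega)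
  have e1 := even_sub_div g a (ρ + g * i) hgpos hda hao (by omega)
  have e2 := even_sub_div g b (ρ + g * i) hgpos hdb hbo (by omega)
  simp only [h3, h4]
  unfold tau
  by_cases he : Even ((ρ + g * i) / g)
  · left
    rw [if_pos he, if_neg (by rw [e1]; exact fun h => h he), if_neg (by rw [e2]; exact fun h => h he)]
    simpa using hr
  · right
    rw [if_neg he, if_pos (e1.2 he), if_pos (e2.2 he)]
    simpa using hr

lemma glue (g : ℕ) (hg : 0 < g) (f : ℕ → ℝ)
    (h : ∀ ρ < g, Tendsto (fun i => f (ρ + g * i)) atTop (𝓝 0)) : Tendsto f atTop (𝓝 0) := by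
  rw [Metric.tendsto_atTop]
  intro e he
  have hev : ∀ᶠ i in atTop, ∀ ρ ∈ Finset.range g, |f (ρ + g * i)| < e := by
    rw [Filter.eventually_all_finset]
    intro ρ hρ
    have := (h ρ (Finset.mem_range.1 hρ)).eventually (Metric.ball_mem_nhds 0 he)
    refine this.mono ?_
    intro i hi
    rwa [Real.dist_eq, sub_zero] at hi
  obtain ⟨N, hN⟩ := eventually_atTop.1 hev
  refine ⟨g * N, fun n hn => ?_⟩
  have h1 : N ≤ n / g := by
    rw [Nat.le_div_iff_mul_le hg, Nat.mul_comm]
    exact hn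
  have h2 := hN (n / g) h1 (n % g) (Finset.mem_range.2 (Nat.mod_lt _ hg))
  rw [Nat.mod_add_div] at h2
  rwa [Real.dist_eq, sub_zero]

/-- Scaling of a sequence: alternately multiply and divide the blocks of length `g`. -/
noncomputable def scaleN (g : ℕ) (c : ZMod g → ℝ) (X : ℕ → ℝ) (n : ℕ) : ℝ :=
  if Even (n / g) then X n * c n else X n / c n

lemma scaleN_pos {g : ℕ} {c : ZMod g → ℝ} (hc : ∀ z, 0 < c z) {X : ℕ → ℝ} (hX : ∀ n, 0 < X n)
    (n : ℕ) : 0 < scaleN g c X n := by
  unfold scaleN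
  have := hc n
  have := hX n
  split_ifs <;> positivity

lemma cast_sub (g a n : ℕ) (hga : g ∣ a) (hn : a ≤ n) : ((n - a : ℕ) : ZMod g) = n := by
  rw [Nat.cast_sub hn, (ZMod.natCast_eq_zero_iff a g).2 hga, sub_zero]

lemma scaleN_rec {a b : ℕ} (ha : 0 < a) (hb : 0 < b) (hao : Odd (a / Nat.gcd a b))
    (hbo : Odd (b / Nat.gcd a b)) {X : ℕ → ℝ} (hX : ∀ n, 0 < X n) (h : Rec a b X)
    {c : ZMod (Nat.gcd a b) → ℝ} (hc : ∀ z, 0 < c z) : Rec a b (scaleN (Nat.gcd a b) c X) := by
  intro n hn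
  set g := Nat.gcd a b with hg
  have hgpos : 0 < g := Nat.gcd_pos_of_pos_left b ha
  have hda : g ∣ a := Nat.gcd_dvd_left a b
  have hdb : g ∣ b := Nat.gcd_dvd_right a b
  have e1 := even_sub_div g a n hgpos hda hao (by omega)
  have e2 := even_sub_div g b n hgpos hdb hbo (by omega)
  have h1 := hX (n - a)
  have h2 := hX (n - b)
  have h3 := hc n
  unfold scaleN
  rw [cast_sub g a n hda (by omega), cast_sub g b n hdb (by omega), h n hn]
  by_cases he : Even (n / g)
  · rw [if_pos he, if_neg (by rw [e1]; exact fun h => h he), if_neg (by rw [e2]; exact fun h => h he)]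
    field_simp
  · rw [if_neg he, if_pos (e1.2 he), if_pos (e2.2 he)]
    field_simp

lemma tau_log_scaleN {g : ℕ} {c : ZMod g → ℝ} (hc : ∀ z, 0 < c z) {X : ℕ → ℝ}
    (hX : ∀ n, 0 < X n) (n : ℕ) :
    tau g n * Real.log (scaleN g c X n / Real.sqrt 2) =
      tau g n * Real.log (X n / Real.sqrt 2) + Real.log (c n) := by
  have hs : 0 < Real.sqrt 2 := Real.sqrt_pos.2 (by norm_num)
  have h1 := hX n
  have h2 := hc n
  unfold scaleN tau
  split_ifs
  · rw [show X n * c n / Real.sqrt 2 = (X n / Real.sqrt 2) * c n by ring,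
      Real.log_mul (by positivity) (by positivity)]
    ring
  · rw [show X n / c n / Real.sqrt 2 = (X n / Real.sqrt 2) / c n by ring,
      Real.log_div (by positivity) (by positivity)]
    ring

theorem scaled_iff {g : ℕ} (hg : 0 < g) {X : ℕ → ℝ} (hX : ∀ n, 0 < X n) (θ : ℕ → ℝ)
    (hθ : ∀ ρ, Tendsto (fun i => tau g (ρ + g * i) * Real.log (X (ρ + g * i) / Real.sqrt 2))
      atTop (𝓝 (θ ρ))) {c : ZMod g → ℝ} (hc : ∀ z, 0 < c z) :
    Tendsto (scaleN g c X) atTop (𝓝 (Real.sqrt 2)) ↔ ∀ z, c z = Real.exp (-θ z.val) := by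
  haveI : NeZero g := ⟨hg.ne'⟩
  rw [tendsto_iff_log (scaleN_pos hc hX)]
  have hcast : ∀ ρ i : ℕ, ((ρ + g * i : ℕ) : ZMod g) = ρ := by
    intro ρ i
    push_cast
    simp
  have hlim : ∀ ρ : ℕ, Tendsto (fun i => tau g (ρ + g * i) *
      Real.log (scaleN g c X (ρ + g * i) / Real.sqrt 2)) atTop (𝓝 (θ ρ + Real.log (c ρ))) := by
    intro ρ
    refine ((hθ ρ).add_const (Real.log (c ρ))).congr ?_
    intro i
    rw [tau_log_scaleN hc hX, hcast]
  constructor
  · intro h z
    have hz : ((z.val : ℕ) : ZMod g) = z := ZMod.natCast_zmod_val z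
    have hsub : Tendsto (fun i => z.val + g * i) atTop atTop := by
      refine tendsto_atTop_mono (f := fun i => i) (fun i => ?_) tendsto_id
      nlinarith [Nat.mul_le_mul_right i (show 1 ≤ g from hg)]
    have h1 := h.comp hsub
    have h2 : Tendsto (fun i => tau g (z.val + g * i) *
        Real.log (scaleN g c X (z.val + g * i) / Real.sqrt 2)) atTop (𝓝 0) := by
      rw [tendsto_zero_iff_abs_tendsto_zero] at h1 ⊢
      refine h1.congr ?_
      intro i
      simp only [Function.comp_apply, abs_mul, tau_abs, one_mul]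
    have h3 := tendsto_nhds_unique (hlim z.val) h2
    rw [hz] at h3
    have h4 : Real.log (c z) = -θ z.val := by linarith
    rw [← h4, Real.exp_log (hc z)]
  · intro h
    refine glue g hg _ ?_
    intro ρ hρ
    have h1 := hlim ρ
    have hval : (ρ : ZMod g).val = ρ := ZMod.val_cast_of_lt hρ
    rw [h ρ, Real.log_exp, hval, add_neg_cancel] at h1
    rw [tendsto_zero_iff_abs_tendsto_zero] at h1 ⊢
    refine h1.congr ?_
    intro i
    simp only [Function.comp_apply, abs_mul, tau_abs, one_mul]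

end Pool.Agent.V11256.DE
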