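import Mathlib
import Pool.Agent.V11256.DE.C

/-!
# Finite-time criterion for convergence to the equilibrium
-/

namespace Pool.Agent.V11256.DE

open Filter Topology

lemma mean_rec (a b : ℕ) (ha : 0 < a) (hao : Odd (a / Nat.gcd a b))
    (hbo : Odd (b / Nat.gcd a b)) (u : ℕ → ℝ)
    (hrec : ∀ n, max a b ≤ n →
      Real.exp (u n) = (Real.exp (-u (n - a)) + Real.exp (-u (n - b))) / 2) (ρ : ℕ) :
    ∀ i, max (a / Nat.gcd a b) (b / Nat.gcd a b) ≤ i →
      Mean (tau (Nat.gcd a b) (ρ + Nat.gcd a b * i) * u (ρ + Nat.gcd a b * i))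
        (tau (Nat.gcd a b) (ρ + Nat.gcd a b * (i - a / Nat.gcd a b)) *
          u (ρ + Nat.gcd a b * (i - a / Nat.gcd a b)))
        (tau (Nat.gcd a b) (ρ + Nat.gcd a b * (i - b / Nat.gcd a b)) *
          u (ρ + Nat.gcd a b * (i - b / Nat.gcd a b))) := by
  set g := Nat.gcd a b with hg
  have hgpos : 0 < g := Nat.gcd_pos_of_pos_left b ha
  have hda : g ∣ a := Nat.gcd_dvd_left a b
  have hdb : g ∣ b := Nat.gcd_dvd_right a b
  have hga : g * (a / g) = a := Nat.mul_div_cancel' hda
  have hgb : g * (b / g) = b := Nat.mul_div_cancel' hdb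
  intro i hi
  have hia : a / g ≤ i := le_trans (le_max_left _ _) hi
  have hib : b / g ≤ i := le_trans (le_max_right _ _) hi
  have h1 : a ≤ g * i := by
    calc a = g * (a / g) := hga.symm
      _ ≤ g * i := Nat.mul_le_mul_left _ hia
  have h2 : b ≤ g * i := by
    calc b = g * (b / g) := hgb.symm
      _ ≤ g * i := Nat.mul_le_mul_left _ hib
  have h3 : ρ + g * (i - a / g) = ρ + g * i - a := by
    rw [Nat.mul_sub, hga]; omega
  have h4 : ρ + g * (i - b / g) = ρ + g * i - b := by
    rw [Nat.mul_sub, hgb]; omega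
  have hr := hrec (ρ + g * i) (by omega)
  have e1 := even_sub_div g a (ρ + g * i) hgpos hda hao (by omega)
  have e2 := even_sub_div g b (ρ + g * i) hgpos hdb hbo (by omega)
  simp only [h3, h4]
  unfold tau
  by_cases he : Even ((ρ + g * i) / g)
  · left
    rw [if_pos he, if_neg (by rw [e1]; exact fun h => h he), if_neg (by rw [e2]; exact fun h => h he)]
    simpa using hr
  · right
    rw [if_neg he, if_pos (e1.2 he), if_pos (e2.2 he)]
    simpa using hr

/-- A positive window keeps the sequence away from zero. -/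
lemma not_tendsto_of_window (a b : ℕ) (ha : 0 < a) (hb : 0 < b) (t : ℕ → ℝ)
    (hrec : ∀ n, max a b ≤ n → Mean (t n) (t (n - a)) (t (n - b)))
    (hw : ∀ i < max a b, 0 < t i) (ht : Tendsto t atTop (𝓝 0)) : False := by
  have hne : (Finset.range (max a b)).Nonempty := ⟨0, Finset.mem_range.2 (by omega)⟩
  obtain ⟨i0, hi0, hmin⟩ := Finset.exists_min_image (Finset.range (max a b)) t hne
  have hpos := hw i0 (Finset.mem_range.1 hi0)
  have h1 := low a b ha hb t hrec (t i0) 0 (fun i hi => by
    rw [Nat.zero_add]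
    exact hmin i (Finset.mem_range.2 hi))
  have h2 : t i0 ≤ 0 := ge_of_tendsto' ht (fun n => h1 n (Nat.zero_le _))
  linarith

/-- Convergence to the equilibrium is equivalent to a family of finite-time conditions. -/
theorem window_iff (a b : ℕ) (ha : 0 < a) (hb : 0 < b) (hao : Odd (a / Nat.gcd a b))
    (hbo : Odd (b / Nat.gcd a b)) {X : ℕ → ℝ} (hpos : ∀ n, 0 < X n) (hX : Rec a b X) :
    Tendsto X atTop (𝓝 (Real.sqrt 2)) ↔ ∀ N ρ : ℕ,
      (∃ n, N ≤ n ∧ n < N + max a b ∧ n % Nat.gcd a b = ρ % Nat.gcd a b ∧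
        tau (Nat.gcd a b) n * Real.log (X n / Real.sqrt 2) ≤ 0) ∧
      (∃ n, N ≤ n ∧ n < N + max a b ∧ n % Nat.gcd a b = ρ % Nat.gcd a b ∧
        0 ≤ tau (Nat.gcd a b) n * Real.log (X n / Real.sqrt 2)) := by
  rw [tendsto_iff_log hpos]
  set g := Nat.gcd a b with hg
  set u : ℕ → ℝ := fun n => Real.log (X n / Real.sqrt 2) with hu
  have hgpos : 0 < g := Nat.gcd_pos_of_pos_left b ha
  have hda : g ∣ a := Nat.gcd_dvd_left a b
  have hdb : g ∣ b := Nat.gcd_dvd_right a b
  have hga : g * (a / g) = a := Nat.mul_div_cancel' hda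
  have hgb : g * (b / g) = b := Nat.mul_div_cancel' hdb
  have hmax : g * max (a / g) (b / g) = max a b := by
    rw [← Nat.mul_max_mul_left, hga, hgb]
  have hlog := log_rec hX hpos
  have hmean := fun ρ => mean_rec a b ha hao hbo u hlog ρ
  have hsubt : ∀ ρ : ℕ, Tendsto (fun i => ρ + g * i) atTop atTop := by
    intro ρ
    refine tendsto_atTop_mono (f := fun i => i) (fun i => ?_) tendsto_id
    nlinarith [Nat.mul_le_mul_right i (show 1 ≤ g from hgpos)]
  constructor
  · intro h N ρ
    -- the first index of the class in the window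
    obtain ⟨n0, hn0, hn0', hn0m⟩ : ∃ n0, N ≤ n0 ∧ n0 < N + g ∧ n0 % g = ρ % g := by
      refine ⟨N + (ρ + g * N - N) % g, by omega, by
        have := Nat.mod_lt (ρ + g * N - N) hgpos
        omega, ?_⟩
      rw [Nat.add_mod_mod]
      have hle : N ≤ ρ + g * N := by nlinarith
      rw [show N + (ρ + g * N - N) = ρ + g * N by omega, Nat.add_mul_mod_self_left]
    have hT : Tendsto (fun i => tau g (n0 + g * i) * u (n0 + g * i)) atTop (𝓝 0) := by
      have h1 := h.comp (hsubt n0)
      rw [tendsto_zero_iff_abs_tendsto_zero] at h1 ⊢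
      refine h1.congr ?_
      intro i
      simp only [Function.comp_apply, abs_mul, tau_abs, one_mul]
    have hin : ∀ i < max (a / g) (b / g), n0 + g * i < N + max a b := by
      intro i hi
      have h1 : g * (i + 1) ≤ g * max (a / g) (b / g) := Nat.mul_le_mul_left _ hi
      rw [hmax, Nat.mul_succ] at h1
      omega
    have hcls : ∀ i, (n0 + g * i) % g = ρ % g := by
      intro i
      rw [Nat.add_mul_mod_self_left, hn0m]
    constructor
    · by_contra hcon
      push Not at hcon
      refine not_tendsto_of_window (a / g) (b / g) hao.pos hbo.pos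
        (fun i => tau g (n0 + g * i) * u (n0 + g * i)) (hmean n0) ?_ hT
      intro i hi
      exact hcon (n0 + g * i) (by omega) (hin i hi) (hcls i)
    · by_contra hcon
      push Not at hcon
      refine not_tendsto_of_window (a / g) (b / g) hao.pos hbo.pos
        (fun i => -(tau g (n0 + g * i) * u (n0 + g * i))) (fun i hi => (hmean n0 i hi).neg) ?_
        (by simpa using hT.neg)
      intro i hi
      have := hcon (n0 + g * i) (by omega) (hin i hi) (hcls i)
      have h5 : tau g (n0 + g * i) * u (n0 + g * i) < 0 := this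
      show 0 < -(tau g (n0 + g * i) * u (n0 + g * i))
      linarith
  · intro h
    refine glue g hgpos _ ?_
    intro ρ hρ
    obtain ⟨θ, hθ⟩ := res_conv a b ha hb hao hbo u hlog ρ
    have hclass : ∀ n, n % g = ρ % g → n = ρ + g * (n / g) := by
      intro n hn
      rw [Nat.mod_eq_of_lt hρ] at hn
      rw [← hn]
      exact (Nat.mod_add_div n g).symm
    have hθ0 : θ = 0 := by
      rcases lt_trichotomy θ 0 with hlt | heq | hgt
      · exfalso
        obtain ⟨I, hI⟩ := eventually_atTop.1 (hθ.eventually (gt_mem_nhds hlt))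
        obtain ⟨n, hn1, -, hn3, hn4⟩ := (h (ρ + g * I) ρ).2
        have hn := hclass n hn3
        have hI' : I ≤ n / g := by
          by_contra hc
          push Not at hc
          have : g * (n / g) < g * I := Nat.mul_lt_mul_of_pos_left hc hgpos
          omega
        have := hI (n / g) hI'
        rw [← hn] at this
        exact absurd hn4 (not_le.2 this)
      · exact heq
      · exfalso
        obtain ⟨I, hI⟩ := eventually_atTop.1 (hθ.eventually (lt_mem_nhds hgt))
        obtain ⟨n, hn1, -, hn3, hn4⟩ := (h (ρ + g * I) ρ).1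
        have hn := hclass n hn3
        have hI' : I ≤ n / g := by
          by_contra hc
          push Not at hc
          have : g * (n / g) < g * I := Nat.mul_lt_mul_of_pos_left hc hgpos
          omega
        have := hI (n / g) hI'
        rw [← hn] at this
        exact absurd hn4 (not_le.2 this)
    rw [hθ0] at hθ
    rw [tendsto_zero_iff_abs_tendsto_zero] at hθ ⊢
    refine hθ.congr ?_
    intro i
    simp only [Function.comp_apply, abs_mul, tau_abs, one_mul]
    rfl

end Pool.Agent.V11256.DE
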