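import Mathlib

/-!
# The recurrence `x_{n+1} = (α + x_{n-1}) / (A + B x_n + x_{n-1})`, monotone case `α < A`
-/

namespace Pool.Agent.V11256.DE2

open Filter Topology

/-- The right-hand side, with `u = x_{n-1}`, `v = x_n`. -/
noncomputable def f (α A B u v : ℝ) : ℝ := (α + u) / (A + B * v + u)

/-- Solutions with indices shifted: `X 0 = x_{-1}`, `X 1 = x_0`. -/
def IsSol (α A B : ℝ) (X : ℕ → ℝ) : Prop := ∀ n, X (n + 2) = f α A B (X n) (X (n + 1))

variable {α A B : ℝ}

lemma f_mono (hα : 0 < α) (hA : α < A) (hB : 1 < B) {u u' v v' : ℝ} (hu : 0 ≤ u) (huu : u ≤ u')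
    (hv' : 0 ≤ v') (hvv : v' ≤ v) : f α A B u v ≤ f α A B u' v' := by
  unfold f
  have hB0 : 0 < B := by linarith
  have h1 : 0 < A + B * v + u := by nlinarith
  have h2 : 0 < A + B * v' + u' := by nlinarith
  rw [div_le_div_iff₀ h1 h2]
  nlinarith [mul_nonneg (sub_nonneg.2 huu) hv', mul_nonneg (sub_nonneg.2 hvv) hu,
    mul_nonneg (sub_nonneg.2 hvv) hα.le, mul_nonneg (sub_nonneg.2 huu) (sub_nonneg.2 hvv),
    mul_nonneg (mul_nonneg hB0.le (sub_nonneg.2 huu)) hv',
    mul_nonneg (mul_nonneg hB0.le (sub_nonneg.2 hvv)) hu,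
    mul_nonneg (mul_nonneg hB0.le (sub_nonneg.2 hvv)) hα.le,
    mul_nonneg (mul_nonneg hB0.le (sub_nonneg.2 huu)) (sub_nonneg.2 hvv),
    mul_nonneg (sub_nonneg.2 huu) (sub_nonneg.2 hA.le)]

lemma sol_nonneg (hα : 0 < α) (hA : α < A) (hB : 1 < B) {X : ℕ → ℝ} (hX : IsSol α A B X)
    (h0 : 0 ≤ X 0) (h1 : 0 ≤ X 1) : ∀ n, 0 ≤ X n := by
  intro n
  induction n using Nat.strong_induction_on with
  | _ n ih =>
    match n with
    | 0 => exact h0
    | 1 => exact h1
    | n + 2 =>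
      rw [hX n]
      have a := ih n (by omega)
      have b := ih (n + 1) (by omega)
      unfold f
      have : 0 ≤ B * X (n + 1) := mul_nonneg (by linarith) b
      exact div_nonneg (by linarith) (by linarith)

lemma sol_le_one (hα : 0 < α) (hA : α < A) (hB : 1 < B) {X : ℕ → ℝ} (hX : IsSol α A B X)
    (h0 : 0 ≤ X 0) (h1 : 0 ≤ X 1) (n : ℕ) : X (n + 2) ≤ 1 := by
  have a := sol_nonneg hα hA hB hX h0 h1 n
  have b := sol_nonneg hα hA hB hX h0 h1 (n + 1)
  have : 0 ≤ B * X (n + 1) := mul_nonneg (by linarith) b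
  rw [hX n]
  unfold f
  rw [div_le_one (by linarith)]
  linarith

/-- Comparison of solutions. -/
lemma compare (hα : 0 < α) (hA : α < A) (hB : 1 < B) {X Y : ℕ → ℝ} (hX : IsSol α A B X)
    (hY : IsSol α A B Y) (hX0 : ∀ n, 0 ≤ X n) (hY0 : ∀ n, 0 ≤ Y n) (h0 : X 0 ≤ Y 0)
    (h1 : Y 1 ≤ X 1) : ∀ n, X (2 * n) ≤ Y (2 * n) ∧ Y (2 * n + 1) ≤ X (2 * n + 1) := by
  intro n
  induction n with
  | zero => exact ⟨h0, h1⟩
  | succ n ih =>
    have e1 : X (2 * (n + 1)) ≤ Y (2 * (n + 1)) := by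
      rw [show 2 * (n + 1) = 2 * n + 2 by ring, hX, hY]
      exact f_mono hα hA hB (hX0 _) ih.1 (hY0 _) ih.2
    refine ⟨e1, ?_⟩
    rw [show 2 * (n + 1) = 2 * n + 1 + 1 by ring] at e1 ⊢
    rw [hX, hY]
    exact f_mono hα hA hB (hY0 _) ih.2 (hX0 _) e1

lemma shift_sol {X : ℕ → ℝ} (hX : IsSol α A B X) (k : ℕ) : IsSol α A B (fun n => X (n + k)) := by
  intro n
  have := hX (n + k)
  simp only
  rw [show n + 2 + k = n + k + 2 by ring, this, show n + 1 + k = n + k + 1 by ring]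

/-- The even and odd subsequences are eventually monotone. -/
lemma subseq_conv (hα : 0 < α) (hA : α < A) (hB : 1 < B) {X : ℕ → ℝ} (hX : IsSol α A B X)
    (hX0 : ∀ n, 0 ≤ X n) :
    (∃ p, Tendsto (fun n => X (2 * n)) atTop (𝓝 p)) ∧
      (∃ q, Tendsto (fun n => X (2 * n + 1)) atTop (𝓝 q)) := by
  have hone : ∀ n, X (n + 2) ≤ 1 := sol_le_one hα hA hB hX (hX0 0) (hX0 1)
  -- monotone from an index on implies convergence
  have hinc : ∀ k : ℕ, (∀ n, X (2 * n + k) ≤ X (2 * n + k + 2)) →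
      ∃ p, Tendsto (fun n => X (2 * n + k)) atTop (𝓝 p) := by
    intro k h
    have hm : Monotone (fun n => X (2 * n + k)) := monotone_nat_of_le_succ (fun n => by
      have := h n
      rwa [show 2 * n + k + 2 = 2 * (n + 1) + k by ring] at this)
    refine ⟨_, tendsto_atTop_ciSup hm ⟨max 1 (max (X k) (X 0)), ?_⟩⟩
    rintro _ ⟨n, rfl⟩
    refine le_trans (hm (Nat.le_succ n)) ?_
    simp only
    rw [show 2 * n.succ + k = (2 * n + k) + 2 by simp [Nat.succ_eq_add_one]; ring]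
    exact le_trans (hone _) (le_max_left _ _)
  have hdec : ∀ k : ℕ, (∀ n, X (2 * n + k + 2) ≤ X (2 * n + k)) →
      ∃ p, Tendsto (fun n => X (2 * n + k)) atTop (𝓝 p) := by
    intro k h
    have hm : Antitone (fun n => X (2 * n + k)) := antitone_nat_of_succ_le (fun n => by
      have := h n
      rwa [show 2 * n + k + 2 = 2 * (n + 1) + k by ring] at this)
    refine ⟨_, tendsto_atTop_ciInf hm ⟨0, ?_⟩⟩
    rintro _ ⟨n, rfl⟩
    exact hX0 _
  -- convergence of a tail gives convergence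
  have htail : ∀ k : ℕ, (∃ p, Tendsto (fun n => X (2 * n + k)) atTop (𝓝 p)) →
      (∃ q, Tendsto (fun n => X (2 * n + k + 1)) atTop (𝓝 q)) →
      (∃ p, Tendsto (fun n => X (2 * n)) atTop (𝓝 p)) ∧
      (∃ q, Tendsto (fun n => X (2 * n + 1)) atTop (𝓝 q)) := by
    rintro k ⟨p, hp⟩ ⟨q, hq⟩
    rcases Nat.even_or_odd' k with ⟨c, hc | hc⟩
    · refine ⟨⟨p, ?_⟩, ⟨q, ?_⟩⟩
      · rw [← tendsto_add_atTop_iff_nat c]
        refine hp.congr (fun n => ?_)
        congr 1; omega
      · rw [← tendsto_add_atTop_iff_nat c]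
        refine hq.congr (fun n => ?_)
        congr 1; omega
    · refine ⟨⟨q, ?_⟩, ⟨p, ?_⟩⟩
      · rw [← tendsto_add_atTop_iff_nat (c + 1)]
        refine hq.congr (fun n => ?_)
        congr 1; omega
      · rw [← tendsto_add_atTop_iff_nat c]
        refine hp.congr (fun n => ?_)
        congr 1; omega
  -- opposite directions persist
  have hpers : ∀ k, X k ≤ X (k + 2) → X (k + 3) ≤ X (k + 1) →
      ∀ n, X (2 * n + k) ≤ X (2 * n + k + 2) ∧ X (2 * n + k + 3) ≤ X (2 * n + k + 1) := by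
    intro k h1 h2 n
    induction n with
    | zero => simpa using ⟨h1, h2⟩
    | succ n ih =>
      obtain ⟨i1, i2⟩ := ih
      have e1 : X (2 * n + k + 2) ≤ X (2 * n + k + 4) := by
        rw [hX (2 * n + k), hX (2 * n + k + 2)]
        exact f_mono hα hA hB (hX0 _) i1 (hX0 _) i2
      have e2 : X (2 * n + k + 5) ≤ X (2 * n + k + 3) := by
        rw [hX (2 * n + k + 1), hX (2 * n + k + 3)]
        exact f_mono hα hA hB (hX0 _) i2 (hX0 _) e1
      rw [show 2 * (n + 1) + k = 2 * n + k + 2 by ring]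
      exact ⟨e1, e2⟩
  by_cases hex : ∃ k, X k ≤ X (k + 2) ∧ X (k + 3) ≤ X (k + 1)
  · obtain ⟨k, h1, h2⟩ := hex
    have h := hpers k h1 h2
    refine htail k (hinc k (fun n => (h n).1)) ?_
    exact hdec (k + 1) (fun n => by
      have := (h n).2
      rwa [show 2 * n + (k + 1) + 2 = 2 * n + k + 3 by ring,
        show 2 * n + (k + 1) = 2 * n + k + 1 by ring])
  · by_cases hex' : ∃ k, X (k + 2) ≤ X k ∧ X (k + 1) ≤ X (k + 3)
    · -- the next pair is in the first pattern, or both increase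
      obtain ⟨k, h1, h2⟩ := hex'
      by_cases h3 : X (k + 4) ≤ X (k + 2)
      · exact absurd ⟨k + 1, h2, h3⟩ hex
      · push Not at h3
        exfalso
        have e1 : X (k + 4) ≤ X (k + 2) := by
          rw [hX k, hX (k + 2)]
          exact f_mono hα hA hB (hX0 _) h1 (hX0 _) h2
        linarith
    · push Not at hex hex'
      by_cases h0 : X 0 ≤ X 2
      · have hall : ∀ n, X n ≤ X (n + 2) := by
          intro n
          induction n with
          | zero => exact h0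
          | succ n ih => exact (hex n ih).le
        exact htail 0 (hinc 0 (fun n => hall _)) (hinc 1 (fun n => hall _))
      · have hall : ∀ n, X (n + 2) ≤ X n := by
          intro n
          induction n with
          | zero => exact (not_le.1 h0).le
          | succ n ih => exact (hex' n ih).le
        exact htail 0 (hdec 0 (fun n => hall _)) (hdec 1 (fun n => hall _))

end Pool.Agent.V11256.DE2
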