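import Mathlib
import Pool.Agent.V11256.DE.E

/-!
# Limits and expansion for `x_{n+1} = (α + x_{n-1}) / (A + B x_n + x_{n-1})`
-/

namespace Pool.Agent.V11256.DE2

open Filter Topology

variable {α A B : ℝ}

/-- The limits of the even and odd subsequences form a two-cycle or an equilibrium. -/
lemma limit_eqs (hα : 0 < α) (hA : α < A) (hB : 1 < B) {X : ℕ → ℝ} (hX : IsSol α A B X)
    (hX0 : ∀ n, 0 ≤ X n) {p q : ℝ} (hp : Tendsto (fun n => X (2 * n)) atTop (𝓝 p))
    (hq : Tendsto (fun n => X (2 * n + 1)) atTop (𝓝 q)) :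
    0 ≤ p ∧ 0 ≤ q ∧ p * (A + B * q + p) = α + p ∧ q * (A + B * p + q) = α + q := by
  have hp0 : 0 ≤ p := ge_of_tendsto' hp (fun n => hX0 _)
  have hq0 : 0 ≤ q := ge_of_tendsto' hq (fun n => hX0 _)
  have hid : ∀ n, X (n + 2) * (A + B * X (n + 1) + X n) = α + X n := by
    intro n
    have h1 : 0 ≤ B * X (n + 1) := mul_nonneg (by linarith) (hX0 _)
    have h2 := hX0 n
    rw [hX n]
    unfold f
    rw [div_mul_cancel₀]
    have : 0 < A + B * X (n + 1) + X n := by linarith
    exact this.ne'
  have hp' : Tendsto (fun n => X (2 * n + 2)) atTop (𝓝 p) := by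
    have := (tendsto_add_atTop_iff_nat 1).2 hp
    refine this.congr (fun n => ?_)
    congr 1
  have hq' : Tendsto (fun n => X (2 * n + 3)) atTop (𝓝 q) := by
    have := (tendsto_add_atTop_iff_nat 1).2 hq
    refine this.congr (fun n => ?_)
    congr 1
  refine ⟨hp0, hq0, ?_, ?_⟩
  · have h1 : Tendsto (fun n => X (2 * n + 2) * (A + B * X (2 * n + 1) + X (2 * n))) atTop
        (𝓝 (p * (A + B * q + p))) :=
      hp'.mul ((tendsto_const_nhds.add (hq.const_mul B)).add hp)
    have h2 : Tendsto (fun n => α + X (2 * n)) atTop (𝓝 (α + p)) := tendsto_const_nhds.add hp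
    refine tendsto_nhds_unique h1 (h2.congr (fun n => ?_))
    exact (hid (2 * n)).symm
  · have h1 : Tendsto (fun n => X (2 * n + 3) * (A + B * X (2 * n + 2) + X (2 * n + 1))) atTop
        (𝓝 (q * (A + B * p + q))) :=
      hq'.mul ((tendsto_const_nhds.add (hp'.const_mul B)).add hq)
    have h2 : Tendsto (fun n => α + X (2 * n + 1)) atTop (𝓝 (α + q)) :=
      tendsto_const_nhds.add hq
    refine tendsto_nhds_unique h1 (h2.congr (fun n => ?_))
    exact (hid (2 * n + 1)).symm

/-- Solutions of the two-cycle equations. -/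
lemma classify (hα : 0 < α) (hA : α < A) (hB : 1 < B) {x m M p q : ℝ} (hx : 0 < x)
    (hxeq : (1 + B) * x ^ 2 = (1 - A) * x + α) (hs : m + M = 1 - A) (hpr : m * M * (B - 1) = α)
    (hp0 : 0 ≤ p) (hq0 : 0 ≤ q) (hp : p * (A + B * q + p) = α + p)
    (hq : q * (A + B * p + q) = α + q) :
    (p = x ∧ q = x) ∨ (p = m ∧ q = M) ∨ (p = M ∧ q = m) := by
  have h1 : (p - q) * (A + p + q - 1) = 0 := by linear_combination hp - hq
  rcases mul_eq_zero.1 h1 with h | h
  · left
    have hpq : q = p := by linarith
    subst hpq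
    have h2 : (q - x) * ((1 + B) * (q + x) - (1 - A)) = 0 := by
      linear_combination hp - hxeq
    have h3 : 0 < (1 + B) * (q + x) - (1 - A) := by
      have h4 : 0 < ((1 + B) * x - (1 - A)) * x := by nlinarith
      have h5 : 0 < (1 + B) * x - (1 - A) := by
        by_contra hc
        push Not at hc
        nlinarith
      nlinarith [mul_nonneg (show (0 : ℝ) ≤ 1 + B by linarith) hq0]
    rcases mul_eq_zero.1 h2 with h6 | h6
    · constructor <;> linarith
    · linarith
  · right
    have hq' : q = 1 - A - p := by linarith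
    have hpq : p * q * (B - 1) = α := by
      have : p * (A + p - 1) + B * (p * q) = α := by linear_combination hp
      have h2 : A + p - 1 = -q := by linarith
      rw [h2] at this
      linear_combination this
    have hB1 : (B - 1) ≠ 0 := by
      have : 0 < B - 1 := by linarith
      exact this.ne'
    have h2 : p * q = m * M := by
      have : (p * q - m * M) * (B - 1) = 0 := by linear_combination hpq - hpr
      rcases mul_eq_zero.1 this with h | h
      · linarith
      · exact absurd h hB1
    have h3 : (p - m) * (p - M) = 0 := by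
      have e1 : M = 1 - A - m := by linarith
      rw [hq'] at h2
      rw [e1] at h2 ⊢
      linear_combination -h2
    rcases mul_eq_zero.1 h3 with h4 | h4
    · left; constructor <;> linarith
    · right; constructor <;> linarith

/-- Two different comparable solutions cannot both converge to the equilibrium. -/
lemma expand (hα : 0 < α) (hA : α < A) (hB : 1 < B) {x : ℝ} (hx : 0 < x)
    (hxeq : (1 + B) * x ^ 2 = (1 - A) * x + α) (hx2 : 2 * x < 1 - A) {P Q : ℕ → ℝ}
    (hP : ∀ n, P (n + 2) = f α A B (P n) (Q (n + 1)))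
    (hQ : ∀ n, Q (n + 2) = f α A B (Q n) (P (n + 1)))
    (hP0 : ∀ n, 0 ≤ P n) (hQ0 : ∀ n, 0 ≤ Q n) (h0 : P 0 ≤ Q 0) (h1 : P 1 ≤ Q 1)
    (hne : P 0 < Q 0 ∨ P 1 < Q 1) (hPx : Tendsto P atTop (𝓝 x)) (hQx : Tendsto Q atTop (𝓝 x)) :
    False := by
  have hB0 : 0 < B := by linarith
  have hA0 : 0 < A := by linarith
  set a : ℕ → ℝ := fun n => (A + B * P (n + 1) - α) /
    ((A + B * P (n + 1) + Q n) * (A + B * P (n + 1) + P n)) with ha
  set b : ℕ → ℝ := fun n => B * (α + P n) /
    ((A + B * P (n + 1) + P n) * (A + B * Q (n + 1) + P n)) with hb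
  have hd1 : ∀ n, 0 < A + B * P (n + 1) + Q n := fun n => by
    have := mul_nonneg hB0.le (hP0 (n + 1)); have := hQ0 n; linarith
  have hd2 : ∀ n, 0 < A + B * P (n + 1) + P n := fun n => by
    have := mul_nonneg hB0.le (hP0 (n + 1)); have := hP0 n; linarith
  have hd3 : ∀ n, 0 < A + B * Q (n + 1) + P n := fun n => by
    have := mul_nonneg hB0.le (hQ0 (n + 1)); have := hP0 n; linarith
  have hapos : ∀ n, 0 < a n := fun n => by
    have := mul_nonneg hB0.le (hP0 (n + 1))
    exact div_pos (by linarith) (mul_pos (hd1 n) (hd2 n))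
  have hbpos : ∀ n, 0 < b n := fun n => by
    have := hP0 n
    exact div_pos (mul_pos hB0 (by linarith)) (mul_pos (hd2 n) (hd3 n))
  have hrec : ∀ n, Q (n + 2) - P (n + 2) = a n * (Q n - P n) + b n * (Q (n + 1) - P (n + 1)) := by
    intro n
    rw [hP n, hQ n]
    have e1 := (hd1 n).ne'
    have e2 := (hd2 n).ne'
    have e3 := (hd3 n).ne'
    simp only [ha, hb]
    unfold f
    field_simp
    ring
  have hge : ∀ n, 0 ≤ Q n - P n ∧ 0 ≤ Q (n + 1) - P (n + 1) := by
    intro n
    induction n with
    | zero => exact ⟨by linarith, by simpa using sub_nonneg.2 h1⟩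
    | succ n ih =>
      refine ⟨ih.2, ?_⟩
      rw [show n + 1 + 1 = n + 2 by ring, hrec n]
      exact add_nonneg (mul_nonneg (hapos n).le ih.1) (mul_nonneg (hbpos n).le ih.2)
  have h2 : 0 < Q 2 - P 2 := by
    have e := hrec 0
    simp only [Nat.zero_add] at e
    rw [e]
    rcases hne with h | h
    · exact add_pos_of_pos_of_nonneg (mul_pos (hapos 0) (by linarith))
        (mul_nonneg (hbpos 0).le (by linarith))
    · exact add_pos_of_nonneg_of_pos (mul_nonneg (hapos 0).le (by linarith))
        (mul_pos (hbpos 0) (by linarith))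
  have hpos : ∀ n, 0 < Q (n + 2) - P (n + 2) := by
    intro n
    induction n with
    | zero => exact h2
    | succ n ih =>
      rw [show n + 1 + 2 = (n + 1) + 2 by ring, hrec (n + 1)]
      exact add_pos_of_nonneg_of_pos (mul_nonneg (hapos _).le (hge (n + 1)).1)
        (mul_pos (hbpos _) ih)
  -- the limit of `a + b`
  have hP1 : Tendsto (fun n => P (n + 1)) atTop (𝓝 x) := (tendsto_add_atTop_iff_nat 1).2 hPx
  have hQ1 : Tendsto (fun n => Q (n + 1)) atTop (𝓝 x) := (tendsto_add_atTop_iff_nat 1).2 hQx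
  set D := A + B * x + x with hD
  have hDpos : 0 < D := by
    have := mul_pos hB0 hx
    rw [hD]; linarith
  have hlim : Tendsto (fun n => a n + b n) atTop
      (𝓝 ((A + B * x - α) / (D * D) + B * (α + x) / (D * D))) := by
    refine Tendsto.add ?_ ?_
    · refine Tendsto.div ((tendsto_const_nhds.add (hP1.const_mul B)).sub_const α) ?_ (by positivity)
      exact ((tendsto_const_nhds.add (hP1.const_mul B)).add hQx).mul
        ((tendsto_const_nhds.add (hP1.const_mul B)).add hPx)
    · refine Tendsto.div ((tendsto_const_nhds.add hPx).const_mul B) ?_ (by positivity)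
      exact ((tendsto_const_nhds.add (hP1.const_mul B)).add hPx).mul
        ((tendsto_const_nhds.add (hQ1.const_mul B)).add hPx)
  have hgt : 1 < (A + B * x - α) / (D * D) + B * (α + x) / (D * D) := by
    have hDx : D * x = α + x := by
      rw [hD]; linear_combination hxeq
    have e1 : A + B * x - α = D * (1 - x) := by
      rw [mul_sub, hDx, hD]; ring
    rw [e1, ← hDx, ← add_div, lt_div_iff₀ (by positivity)]
    have : D < 1 - x + B * x := by rw [hD]; nlinarith
    nlinarith
  obtain ⟨N, hN⟩ := eventually_atTop.1 (hlim.eventually (lt_mem_nhds hgt))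
  set K := N + 2 with hK
  set c := min (Q K - P K) (Q (K + 1) - P (K + 1)) with hc
  have hcpos : 0 < c := lt_min (hpos N) (hpos (N + 1))
  have hall : ∀ n, c ≤ Q (K + n) - P (K + n) ∧ c ≤ Q (K + n + 1) - P (K + n + 1) := by
    intro n
    induction n with
    | zero => exact ⟨min_le_left _ _, min_le_right _ _⟩
    | succ n ih =>
      refine ⟨ih.2, ?_⟩
      have e := hrec (K + n)
      rw [show K + (n + 1) + 1 = K + n + 2 by ring, e]
      have hab := hN (K + n) (by omega)
      have i1 := mul_le_mul_of_nonneg_left ih.1 (hapos (K + n)).le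
      have i2 := mul_le_mul_of_nonneg_left ih.2 (hbpos (K + n)).le
      nlinarith
  have hzero : Tendsto (fun n => Q (K + n) - P (K + n)) atTop (𝓝 0) := by
    have h3 : Tendsto (fun n => Q n - P n) atTop (𝓝 (x - x)) := hQx.sub hPx
    rw [sub_self] at h3
    have h4 := (tendsto_add_atTop_iff_nat K).2 h3
    refine h4.congr (fun n => ?_)
    rw [add_comm n K]
  have := ge_of_tendsto' hzero (fun n => (hall n).1)
  linarith

end Pool.Agent.V11256.DE2
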