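import Mathlib
import Pool.Agent.V11256.DE.F

/-!
# The stable set of the equilibrium
-/

namespace Pool.Agent.V11256.DE2

open Filter Topology

/-- All the data of the problem, with the constants given by their defining equations. -/
structure Data (α A B x m M : ℝ) : Prop where
  hα : 0 < α
  hA : α < A
  hB : 1 < B
  hx : 0 < x
  hxeq : (1 + B) * x ^ 2 = (1 - A) * x + α
  hx2 : 2 * x < 1 - A
  hs : m + M = 1 - A
  hpr : m * M * (B - 1) = α
  hmx : m < x
  hxM : x < M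

variable {α A B x m M : ℝ}

lemma const_sol (D : Data α A B x m M) : IsSol α A B (fun _ => x) := by
  intro n
  unfold f
  have h1 : 0 < B * x := mul_pos (by linarith [D.hB]) D.hx
  have h2 : 0 < A + B * x + x := by linarith [D.hx, D.hα, D.hA]
  rw [eq_div_iff h2.ne']
  linear_combination D.hxeq

/-- Trichotomy. -/
lemma tri (D : Data α A B x m M) {Y : ℕ → ℝ} (hY : IsSol α A B Y) (hY0 : ∀ n, 0 ≤ Y n) :
    Tendsto Y atTop (𝓝 x) ∨
    (Tendsto (fun n => Y (2 * n)) atTop (𝓝 m) ∧ Tendsto (fun n => Y (2 * n + 1)) atTop (𝓝 M)) ∨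
    (Tendsto (fun n => Y (2 * n)) atTop (𝓝 M) ∧ Tendsto (fun n => Y (2 * n + 1)) atTop (𝓝 m)) := by
  obtain ⟨⟨p, hp⟩, ⟨q, hq⟩⟩ := subseq_conv D.hα D.hA D.hB hY hY0
  obtain ⟨p0, q0, e1, e2⟩ := limit_eqs D.hα D.hA D.hB hY hY0 hp hq
  rcases classify D.hα D.hA D.hB D.hx D.hxeq D.hs D.hpr p0 q0 e1 e2 with
    ⟨h1, h2⟩ | ⟨h1, h2⟩ | ⟨h1, h2⟩
  · left
    subst h1
    rw [h2] at hq
    rw [Metric.tendsto_atTop] at hp hq ⊢
    intro e he
    obtain ⟨N1, h1⟩ := hp e he
    obtain ⟨N2, h2⟩ := hq e he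
    refine ⟨2 * max N1 N2 + 1, fun n hn => ?_⟩
    rcases Nat.even_or_odd' n with ⟨c, hc | hc⟩
    · rw [hc]; exact h1 c (by omega)
    · rw [hc]; exact h2 c (by omega)
  · right; left; subst h1; subst h2; exact ⟨hp, hq⟩
  · right; right; subst h1; subst h2; exact ⟨hp, hq⟩

lemma sub_even {Y : ℕ → ℝ} {L : ℝ} (h : Tendsto Y atTop (𝓝 L)) :
    Tendsto (fun n => Y (2 * n)) atTop (𝓝 L) :=
  h.comp (tendsto_atTop_mono (f := fun i => i) (fun i => by omega) tendsto_id)

lemma sub_odd {Y : ℕ → ℝ} {L : ℝ} (h : Tendsto Y atTop (𝓝 L)) :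
    Tendsto (fun n => Y (2 * n + 1)) atTop (𝓝 L) :=
  h.comp (tendsto_atTop_mono (f := fun i => i) (fun i => by omega) tendsto_id)

/-- No two different comparable solutions converge to the equilibrium. -/
lemma no_two (D : Data α A B x m M) {X Y : ℕ → ℝ} (hX : IsSol α A B X) (hY : IsSol α A B Y)
    (hX0 : ∀ n, 0 ≤ X n) (hY0 : ∀ n, 0 ≤ Y n) (h0 : X 0 ≤ Y 0) (h1 : Y 1 ≤ X 1)
    (hne : X 0 < Y 0 ∨ Y 1 < X 1) (hXx : Tendsto X atTop (𝓝 x)) (hYx : Tendsto Y atTop (𝓝 x)) :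
    False := by
  have hpar : ∀ n, (Even (n + 2) ↔ Even n) ∧ (Even (n + 1) ↔ ¬ Even n) := by
    intro n
    constructor
    · rw [Nat.even_add]; simp
    · rw [Nat.even_add_one]
  refine expand D.hα D.hA D.hB D.hx D.hxeq D.hx2
    (P := fun n => if Even n then X n else Y n) (Q := fun n => if Even n then Y n else X n)
    ?_ ?_ ?_ ?_ ?_ ?_ ?_ ?_ ?_
  · intro n
    by_cases he : Even n
    · simp only [(hpar n).1, (hpar n).2, he, if_true, not_true, if_false]
      exact hX n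
    · simp only [(hpar n).1, (hpar n).2, he, if_true, not_false_iff, if_false]
      exact hY n
  · intro n
    by_cases he : Even n
    · simp only [(hpar n).1, (hpar n).2, he, if_true, not_true, if_false]
      exact hY n
    · simp only [(hpar n).1, (hpar n).2, he, if_true, not_false_iff, if_false]
      exact hX n
  · intro n; split_ifs <;> [exact hX0 n; exact hY0 n]
  · intro n; split_ifs <;> [exact hY0 n; exact hX0 n]
  · simpa using h0
  · simpa using h1
  · simpa using hne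
  · rw [Metric.tendsto_atTop] at hXx hYx ⊢
    intro e he
    obtain ⟨N1, h1⟩ := hXx e he
    obtain ⟨N2, h2⟩ := hYx e he
    refine ⟨max N1 N2, fun n hn => ?_⟩
    split_ifs
    · exact h1 n (le_trans (le_max_left _ _) hn)
    · exact h2 n (le_trans (le_max_right _ _) hn)
  · rw [Metric.tendsto_atTop] at hXx hYx ⊢
    intro e he
    obtain ⟨N1, h1⟩ := hXx e he
    obtain ⟨N2, h2⟩ := hYx e he
    refine ⟨max N1 N2, fun n hn => ?_⟩
    split_ifs
    · exact h2 n (le_trans (le_max_right _ _) hn)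
    · exact h1 n (le_trans (le_max_left _ _) hn)

/-- A solution south-east of a solution converging to the equilibrium. -/
lemma south_east (D : Data α A B x m M) {X Y : ℕ → ℝ} (hX : IsSol α A B X) (hY : IsSol α A B Y)
    (hX0 : ∀ n, 0 ≤ X n) (hY0 : ∀ n, 0 ≤ Y n) (h0 : X 0 ≤ Y 0) (h1 : Y 1 ≤ X 1)
    (hne : X 0 < Y 0 ∨ Y 1 < X 1) (hXx : Tendsto X atTop (𝓝 x)) :
    Tendsto (fun n => Y (2 * n)) atTop (𝓝 M) ∧ Tendsto (fun n => Y (2 * n + 1)) atTop (𝓝 m) := by
  rcases tri D hY hY0 with h | h | h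
  · exact (no_two D hX hY hX0 hY0 h0 h1 hne hXx h).elim
  · have hc := compare D.hα D.hA D.hB hX hY hX0 hY0 h0 h1
    have := le_of_tendsto_of_tendsto' (sub_even hXx) h.1 (fun n => (hc n).1)
    exact absurd D.hmx (not_lt.2 this)
  · exact h

/-- A solution north-west of a solution converging to the equilibrium. -/
lemma north_west (D : Data α A B x m M) {X Y : ℕ → ℝ} (hX : IsSol α A B X) (hY : IsSol α A B Y)
    (hX0 : ∀ n, 0 ≤ X n) (hY0 : ∀ n, 0 ≤ Y n) (h0 : Y 0 ≤ X 0) (h1 : X 1 ≤ Y 1)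
    (hne : Y 0 < X 0 ∨ X 1 < Y 1) (hXx : Tendsto X atTop (𝓝 x)) :
    Tendsto (fun n => Y (2 * n)) atTop (𝓝 m) ∧ Tendsto (fun n => Y (2 * n + 1)) atTop (𝓝 M) := by
  rcases tri D hY hY0 with h | h | h
  · exact (no_two D hY hX hY0 hX0 h0 h1 hne h hXx).elim
  · exact h
  · have hc := compare D.hα D.hA D.hB hY hX hY0 hX0 h0 h1
    have := le_of_tendsto_of_tendsto' h.1 (sub_even hXx) (fun n => (hc n).1)
    exact absurd D.hxM (not_lt.2 this)

/-- Criterion for attraction, first kind. -/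
lemma low_of (D : Data α A B x m M) {Y : ℕ → ℝ} (hY : IsSol α A B Y) (hY0 : ∀ n, 0 ≤ Y n)
    (N : ℕ) (h0 : x ≤ Y (2 * N)) (h1 : Y (2 * N + 1) ≤ x)
    (hne : x < Y (2 * N) ∨ Y (2 * N + 1) < x) :
    Tendsto (fun n => Y (2 * n)) atTop (𝓝 M) ∧ Tendsto (fun n => Y (2 * n + 1)) atTop (𝓝 m) := by
  have h := south_east D (const_sol D) (shift_sol hY (2 * N)) (fun _ => D.hx.le)
    (fun n => hY0 _) (by simpa using h0) (by rw [add_comm 1 (2 * N)]; exact h1)
    (by rw [Nat.zero_add, add_comm 1 (2 * N)]; exact hne) tendsto_const_nhds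
  constructor
  · rw [← tendsto_add_atTop_iff_nat N]
    refine h.1.congr (fun n => ?_)
    congr 1; ring
  · rw [← tendsto_add_atTop_iff_nat N]
    refine h.2.congr (fun n => ?_)
    congr 1; ring

/-- Criterion for attraction, second kind. -/
lemma high_of (D : Data α A B x m M) {Y : ℕ → ℝ} (hY : IsSol α A B Y) (hY0 : ∀ n, 0 ≤ Y n)
    (N : ℕ) (h0 : Y (2 * N) ≤ x) (h1 : x ≤ Y (2 * N + 1))
    (hne : Y (2 * N) < x ∨ x < Y (2 * N + 1)) :
    Tendsto (fun n => Y (2 * n)) atTop (𝓝 m) ∧ Tendsto (fun n => Y (2 * n + 1)) atTop (𝓝 M) := by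
  have h := north_west D (const_sol D) (shift_sol hY (2 * N)) (fun _ => D.hx.le)
    (fun n => hY0 _) (by simpa using h0) (by rw [add_comm 1 (2 * N)]; exact h1)
    (by rw [Nat.zero_add, add_comm 1 (2 * N)]; exact hne) tendsto_const_nhds
  constructor
  · rw [← tendsto_add_atTop_iff_nat N]
    refine h.1.congr (fun n => ?_)
    congr 1; ring
  · rw [← tendsto_add_atTop_iff_nat N]
    refine h.2.congr (fun n => ?_)
    congr 1; ring

end Pool.Agent.V11256.DE2
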